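import Pool.Agent.X17.LC.A

/-! # Trajectories of generalised Collatz maps at the values of polynomials at random integers: the law -/

set_option autoImplicit false
set_option maxHeartbeats 4000000

namespace Pool.Agent.X17.LC

open Finset Filter Polynomial
open Pool.Agent.Y927.GP Pool.Agent.H319R2.M
open Pool.Agent.X17.MD (Law prob prob_eq prob_nonneg prob_mono prob_or prob_le_one meas num wt wt_nonneg)

/-- small values are rare, uniformly in the shift -/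
theorem small_shift {f : ℤ[X]} (hdeg : 1 ≤ f.natDegree) : ∃ C : ℝ, 0 < C ∧ ∀ {b L Δ : ℕ} {c : ℝ} {ν : Fin L → Fin b → ℝ},
    0 < b → 0 < Δ → c ≤ 1 → Law b Δ c ν → ∀ (A : ℤ) (Z : ℝ), 1 ≤ Z →
    prob ν (fun n => |((f.eval (A + (n : ℤ)) : ℤ) : ℝ)| < Z) ≤ C * Z * (1 - c) ^ L := by
  classical
  obtain ⟨C, hC, h⟩ := few_small hdeg
  refine ⟨C, hC, fun {b L Δ c ν} hb hΔ hc1 hlaw A Z hZ => ?_⟩
  set S : Finset (Fin L → Fin b) := (univ : Finset (Fin L → Fin b)).filter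
    (fun d => |((f.eval (A + ((num b d : ℕ) : ℤ)) : ℤ) : ℝ)| < Z) with hS
  rw [prob_eq (fun n => |((f.eval (A + (n : ℤ)) : ℤ) : ℝ)| < Z) S (fun d => by rw [hS, mem_filter]; simp)]
  have h1 := h Z hZ (S.image (fun d => A + ((num b d : ℕ) : ℤ))) (by
    intro n hn
    rw [mem_image] at hn
    obtain ⟨d, hd, rfl⟩ := hn
    rw [hS, mem_filter] at hd
    exact hd.2)
  rw [card_image_of_injective] at h1
  swap
  · intro d d' hdd
    have : num b d = num b d' := by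
      have h2 : A + ((num b d : ℕ) : ℤ) = A + ((num b d' : ℕ) : ℤ) := hdd
      omega
    exact num_inj hb this
  have h2 : Z ^ (1 / (f.natDegree : ℝ)) ≤ Z := by
    conv_rhs => rw [← Real.rpow_one Z]
    apply Real.rpow_le_rpow_of_exponent_le hZ
    have : (1 : ℝ) ≤ f.natDegree := by exact_mod_cast hdeg
    rw [div_le_one (by linarith)]
    exact this
  have hc0 : 0 ≤ (1 - c) ^ L := pow_nonneg (by linarith) _
  calc ∑ d ∈ S, wt ν d ≤ S.card * (1 - c) ^ L := few_vectors hΔ hlaw S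
    _ ≤ (C * Z) * (1 - c) ^ L := by
        apply mul_le_mul_of_nonneg_right _ hc0
        exact h1.trans (mul_le_mul_of_nonneg_left h2 hC.le)

/-- the measure of a set of classes, uniformly in the shift -/
theorem meas_shift {b N L Δ : ℕ} [NeZero N] (hb : 2 ≤ b) (hbN : Nat.Coprime b N) (hΔ0 : 0 < Δ) (hΔ : Nat.Coprime Δ N)
    {c : ℝ} (hc : 0 ≤ c) (hc1 : c ≤ 1) {ν : Fin L → Fin b → ℝ} (h : Law b Δ c ν) {r J : ℕ} (hr : 1 ≤ r)
    (hJ : N ≤ b ^ J) (hL : r * J ≤ L) (R : Finset ℤ) (A : ℤ) :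
    prob ν (fun n => ∃ a ∈ R, A + (n : ℤ) ≡ a [ZMOD N]) ^ 2 ≤
      R.card / N * (r * (b * (1 + b * (1 - c * (4 / (b : ℝ) ^ 4)) ^ (2 * r)) ^ J)) := by
  classical
  set Z : Finset (ZMod N) := R.image (fun a => ((a - A : ℤ) : ZMod N)) with hZ
  set S : Finset (Fin L → Fin b) := (univ : Finset (Fin L → Fin b)).filter
    (fun d => ∃ a ∈ R, A + ((num b d : ℕ) : ℤ) ≡ a [ZMOD N]) with hS
  rw [prob_eq (fun n => ∃ a ∈ R, A + (n : ℤ) ≡ a [ZMOD N]) S (fun d => by rw [hS, mem_filter]; simp)]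
  have h1 := meas (N := N) hb hbN hΔ0 hΔ hc hc1 h hr hJ hL Z S (by
    intro d hd
    rw [hS, mem_filter] at hd
    obtain ⟨-, a, ha, h2⟩ := hd
    rw [hZ, mem_image]
    refine ⟨a, ha, ?_⟩
    have h3 := (ZMod.intCast_eq_intCast_iff _ _ _).2 h2
    push_cast at h3 ⊢
    rw [← h3]; ring)
  refine h1.trans ?_
  have h2 : (2 : ℝ) ≤ b := by exact_mod_cast hb
  have hb4 : 4 / (b : ℝ) ^ 4 ≤ 1 := by
    rw [div_le_one (by positivity)]
    calc (4 : ℝ) ≤ 2 ^ 4 := by norm_num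
      _ ≤ (b : ℝ) ^ 4 := pow_le_pow_left₀ (by norm_num) h2 4
  have hb40 : 0 ≤ 4 / (b : ℝ) ^ 4 := by positivity
  have hρ0 : 0 ≤ 1 - c * (4 / (b : ℝ) ^ 4) := by nlinarith
  have hcard : (Z.card : ℝ) ≤ R.card := by exact_mod_cast card_image_le
  gcongr

/-- **The trajectories of the values of polynomials at random integers follow the law.** -/
theorem traj {g : GM} {b : ℤ → ℤ} {e : ℤ → ℕ} {C : Finset (ℤ × ℕ)} {ρ : ℤ × ℕ → ℝ} (hf : g.Fac b e)
    (hC : g.Cls e C ρ) {f : ℤ[X]} (hdeg : 1 ≤ f.natDegree) (q : ℕ) (hq : 2 ≤ q) (hcop : Nat.Coprime q g.d)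
    {c : ℝ} (hc : 0 < c) (hc1 : c ≤ 1) {ε : ℝ} (hε : 0 < ε) (H : ℝ) :
    ∃ c0 δ K : ℝ, 0 < c0 ∧ 0 < δ ∧ 0 < K ∧ ∀ (L Δ : ℕ) (ν : Fin L → Fin q → ℝ), 0 < Δ → Nat.Coprime Δ g.d →
      Law q Δ c ν → ∀ (A : ℤ) (y : ℝ), 1 ≤ y →
      prob ν (fun n => f.eval (A + (n : ℤ)) ∈ g.SC C ∧ ∃ Y : ℝ, y ≤ Y ∧ Y ≤ Real.exp (c0 * L) ∧
        ¬ (Real.exp (c0 * L) ^ H ≤ |((f.eval (A + (n : ℤ)) : ℤ) : ℝ)| ∧
          Typ g (mu g C ρ) ε Y (f.eval (A + (n : ℤ))))) ≤ K * y ^ (-δ) := by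
  classical
  set μ := mu g C ρ with hμ
  have hd2 := g.two_le
  have hd1 : (1 : ℝ) < g.d := by have := g.dr; linarith
  have hd0 : (0 : ℝ) < g.d := by linarith
  have hL : 0 < Real.log g.d := Real.log_pos hd1
  set κ : ℝ := max 0 (-μ / Real.log g.d) with hκdef
  have hκ0 : 0 ≤ κ := le_max_left _ _
  have hκ : -μ ≤ κ * Real.log g.d := by
    have h1 : -μ / Real.log g.d ≤ κ := le_max_right _ _
    rwa [div_le_iff₀ hL] at h1
  set D : ℝ := max (κ + 4) H with hD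
  have hD4 : κ + 4 ≤ D := le_max_left _ _
  have hDH : H ≤ D := le_max_right _ _
  have hD0 : 0 < D := by linarith
  set ε1 : ℝ := min ε 1 with hε1
  have hε10 : 0 < ε1 := lt_min hε one_pos
  have hε1ε : ε1 ≤ ε := min_le_left _ _
  have hε1β : ε1 ≤ (D - κ) / 4 := by
    have : ε1 ≤ 1 := min_le_right _ _
    linarith
  obtain ⟨δ1, K1, hδ10, hδ11, hK1, hcls⟩ :=
    Pool.Agent.Y57.HS.classes hf hC hdeg (η := ε1 / 4 * Real.log g.d) (by positivity)
  obtain ⟨C3, hC3, hlow⟩ := small_shift hdeg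
  obtain ⟨Y0, hY01, hlarge⟩ := large g.d hd2 (show (0 : ℝ) < 1 by norm_num) (show 0 < ε1 / 4 by positivity)
    (show 0 < (D - κ) / 2 by linarith) g.R_nonneg 0
  -- the number of blocks
  have hqR : (2 : ℝ) ≤ q := by exact_mod_cast hq
  have hq0 : (0 : ℝ) < q := by linarith
  have hq4 : 4 / (q : ℝ) ^ 4 < 1 := by
    rw [div_lt_one (by positivity)]
    calc (4 : ℝ) < 2 ^ 4 := by norm_num
      _ ≤ (q : ℝ) ^ 4 := pow_le_pow_left₀ (by norm_num) hqR 4
  have hq40 : 0 < 4 / (q : ℝ) ^ 4 := by positivity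
  set σ : ℝ := 1 - c * (4 / (q : ℝ) ^ 4) with hσ
  have hσ0 : 0 ≤ σ := by rw [hσ]; nlinarith
  have hσ1 : σ < 1 := by rw [hσ]; nlinarith
  obtain ⟨m, hm⟩ := exists_pow_lt_of_lt_one (show 0 < δ1 * Real.log g.d / (2 * q * g.d) by positivity) hσ1
  set r : ℕ := max m 1 with hr
  have hr1 : 1 ≤ r := le_max_right _ _
  have hr0 : (0 : ℝ) < r := by exact_mod_cast (by omega : 0 < r)
  have hσr : q * σ ^ (2 * r) * g.d ≤ δ1 * Real.log g.d / 2 := by
    have h1 : σ ^ (2 * r) ≤ σ ^ m := pow_le_pow_of_le_one hσ0 hσ1.le (by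
      have := le_max_left m 1
      omega)
    have h2 := h1.trans hm.le
    calc q * σ ^ (2 * r) * g.d ≤ q * (δ1 * Real.log g.d / (2 * q * g.d)) * g.d := by gcongr
      _ = δ1 * Real.log g.d / 2 := by field_simp
  set c0 : ℝ := min (Real.log g.d / (r * g.d)) (c / (2 * D + 2)) with hc0
  have hc00 : 0 < c0 := lt_min (by positivity) (by positivity)
  have hc0r : c0 ≤ Real.log g.d / (r * g.d) := min_le_left _ _
  have hc0D : c0 * D ≤ c / 2 ∧ c0 ≤ c / 2 := by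
    have h1 : c0 ≤ c / (2 * D + 2) := min_le_right _ _
    rw [le_div_iff₀ (by linarith)] at h1
    constructor
    · nlinarith
    · nlinarith
  obtain ⟨ϑ, hϑ⟩ : ∃ ϑ : ℝ, ϑ = (g.d : ℝ) ^ (-(δ1 / 4)) := ⟨_, rfl⟩
  have hϑ0 : 0 < ϑ := by rw [hϑ]; positivity
  have hϑ1 : ϑ < 1 := by
    rw [hϑ]
    exact Real.rpow_lt_one_of_one_lt_of_neg hd1 (by linarith)
  have h1ϑ : 0 < 1 - ϑ := by linarith
  set K2 : ℝ := √(K1 * (r * q)) with hK2
  have hK20 : 0 < K2 := by rw [hK2]; positivity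
  obtain ⟨δ, hδ⟩ : ∃ δ : ℝ, δ = min (δ1 / 4) 1 := ⟨_, rfl⟩
  have hδ0 : 0 < δ := by rw [hδ]; exact lt_min (by positivity) one_pos
  have hδa : δ ≤ δ1 / 4 := by rw [hδ]; exact min_le_left _ _
  have hδ1' : δ ≤ 1 := by rw [hδ]; exact min_le_right _ _
  refine ⟨c0, δ, Y0 ^ δ + C3 + K2 * (g.d : ℝ) ^ (δ1 / 4) / (1 - ϑ), hc00, hδ0, by positivity,
    fun L Δ ν hΔ0 hΔ hlaw A y hy => ?_⟩
  have hyp : 0 < y := by linarith
  have hL0 : (0 : ℝ) ≤ L := Nat.cast_nonneg _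
  have hyδ : 0 < y ^ (-δ) := by positivity
  have hrest : 0 ≤ C3 + K2 * (g.d : ℝ) ^ (δ1 / 4) / (1 - ϑ) := by positivity
  rcases lt_or_ge y Y0 with hsm | hyY0
  · have h1 := prob_le_one hlaw.nonneg hlaw.one (fun n => f.eval (A + (n : ℤ)) ∈ g.SC C ∧ ∃ Y : ℝ, y ≤ Y ∧
      Y ≤ Real.exp (c0 * L) ∧ ¬ (Real.exp (c0 * L) ^ H ≤ |((f.eval (A + (n : ℤ)) : ℤ) : ℝ)| ∧
        Typ g μ ε Y (f.eval (A + (n : ℤ)))))
    refine h1.trans ?_
    have h2 : 1 ≤ Y0 ^ δ * y ^ (-δ) := by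
      rw [Real.rpow_neg hyp.le, ← div_eq_mul_inv, le_div_iff₀ (by positivity), one_mul]
      exact Real.rpow_le_rpow hyp.le hsm.le hδ0.le
    nlinarith
  by_cases hye : y ≤ Real.exp (c0 * L)
  swap
  · have h1 : prob ν (fun n => f.eval (A + (n : ℤ)) ∈ g.SC C ∧ ∃ Y : ℝ, y ≤ Y ∧
      Y ≤ Real.exp (c0 * L) ∧ ¬ (Real.exp (c0 * L) ^ H ≤ |((f.eval (A + (n : ℤ)) : ℤ) : ℝ)| ∧
        Typ g μ ε Y (f.eval (A + (n : ℤ))))) = 0 := by
      rw [prob_eq _ ∅ (by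
        intro d
        constructor
        · intro h; simp at h
        · rintro ⟨-, Y, h2, h3, -⟩
          exact absurd (h2.trans h3) hye)]
      simp
    rw [h1]; positivity
  have hexp1 : 1 ≤ Real.exp (c0 * L) := Real.one_le_exp (by positivity)
  obtain ⟨N0, hN01, hN02, -⟩ := scale g.d hd2 y hy
  set M : ℕ := ⌊c0 * L / Real.log g.d⌋₊ + 1 with hM
  set R : ℕ → Finset ℤ := fun n1 => (Ioc (-1 : ℤ) (-1 + (g.d : ℤ) ^ n1)).filter (fun n => ∃ x : ℤ,
    x ≡ n [ZMOD (g.d : ℤ) ^ n1] ∧ f.eval x ∈ g.SC C ∧ Unb g μ (ε1 / 4 * Real.log g.d) n1 (f.eval x)) with hR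
  have hRcard : ∀ n1, ((R n1).card : ℝ) ≤ K1 * ((g.d : ℝ) ^ n1) ^ (1 - δ1) := by
    intro n1
    refine hcls n1 (R n1) (filter_subset _ _) ?_
    intro n hn
    rw [hR] at hn
    exact (mem_filter.1 hn).2
  -- the events
  have hsub : ∀ n : ℕ, (f.eval (A + (n : ℤ)) ∈ g.SC C ∧ ∃ Y : ℝ, y ≤ Y ∧
      Y ≤ Real.exp (c0 * L) ∧ ¬ (Real.exp (c0 * L) ^ H ≤ |((f.eval (A + (n : ℤ)) : ℤ) : ℝ)| ∧
        Typ g μ ε Y (f.eval (A + (n : ℤ))))) →
      |((f.eval (A + (n : ℤ)) : ℤ) : ℝ)| < Real.exp (c0 * L) ^ D ∨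
        ∃ n1 ∈ Ico N0 M, ∃ a ∈ R n1, A + (n : ℤ) ≡ a [ZMOD ((g.d ^ n1 : ℕ) : ℤ)] := by
    rintro n ⟨hSC, Y, hY1, hY2, hnT⟩
    by_contra hcon
    rw [not_or, not_lt] at hcon
    obtain ⟨hbig, hcl⟩ := hcon
    have hY : 1 ≤ Y := hy.trans hY1
    apply hnT
    refine ⟨(Real.rpow_le_rpow_of_exponent_le hexp1 hDH).trans hbig, ?_⟩
    obtain ⟨n1, hn1, hn2, -⟩ := scale g.d hd2 Y hY
    obtain ⟨-, hYε, hRN⟩ := hlarge Y (hyY0.trans hY1) n1 hn1 hn2
    apply typ_of g hκ0 hκ hε10 hε1ε hε1β hY hn1 hn2 hYε hRN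
    · refine le_trans ?_ hbig
      calc Y ^ (D - ε1) ≤ Y ^ D := Real.rpow_le_rpow_of_exponent_le hY (by linarith)
        _ ≤ Real.exp (c0 * L) ^ D := Real.rpow_le_rpow (by linarith) hY2 hD0.le
    · intro hU
      apply hcl
      have h3 : (((g.d ^ n1 : ℕ)) : ℤ) = (g.d : ℤ) ^ n1 := by push_cast; ring
      refine ⟨n1, ?_, (A + (n : ℤ)) % ((g.d : ℤ) ^ n1), ?_, ?_⟩
      · rw [mem_Ico]
        constructor
        · have h2 : (g.d : ℝ) ^ N0 < (g.d : ℝ) ^ (n1 + 1) := by linarith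
          have h4 := (pow_lt_pow_iff_right₀ hd1).1 h2
          omega
        · rw [hM]
          have h1 : (n1 : ℝ) ≤ c0 * L / Real.log g.d := by
            rw [le_div_iff₀ hL]
            have h2 : (g.d : ℝ) ^ n1 ≤ Real.exp (c0 * L) := hn1.trans hY2
            have h3 := Real.log_le_log (by positivity) h2
            rw [Real.log_pow, Real.log_exp] at h3
            exact h3
          have h2 : n1 ≤ ⌊c0 * L / Real.log g.d⌋₊ := Nat.le_floor h1
          omega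
      · have hp : (0 : ℤ) < (g.d : ℤ) ^ n1 := by
          have : (0 : ℤ) < g.d := by exact_mod_cast (by omega : 0 < g.d)
          positivity
        rw [hR]
        simp only [mem_filter, mem_Ioc]
        have h4 := Int.emod_nonneg (A + (n : ℤ)) hp.ne'
        have h5 := Int.emod_lt_of_pos (A + (n : ℤ)) hp
        refine ⟨⟨by omega, by omega⟩, A + (n : ℤ), ?_, hSC, hU⟩
        exact (Int.mod_modEq _ _).symm
      · rw [h3]
        exact (Int.mod_modEq _ _).symm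
  -- the first event
  have hA : prob ν (fun n => |((f.eval (A + (n : ℤ)) : ℤ) : ℝ)| < Real.exp (c0 * L) ^ D) ≤ C3 * y ^ (-δ) := by
    have hZ1 : 1 ≤ Real.exp (c0 * L) ^ D := Real.one_le_rpow hexp1 hD0.le
    refine (hlow (by omega) hΔ0 hc1 hlaw A _ hZ1).trans ?_
    rw [mul_assoc]
    apply mul_le_mul_of_nonneg_left _ hC3.le
    have h1 : (1 - c) ^ L ≤ Real.exp (-(c * L)) := by
      calc (1 - c) ^ L ≤ (Real.exp (-c)) ^ L :=
            pow_le_pow_left₀ (by linarith) (by have := Real.add_one_le_exp (-c); linarith) _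
        _ = _ := by rw [← Real.exp_nat_mul]; congr 1; ring
    calc Real.exp (c0 * L) ^ D * (1 - c) ^ L ≤ Real.exp (c0 * L) ^ D * Real.exp (-(c * L)) := by gcongr
      _ = Real.exp ((c0 * D - c) * L) := by
          rw [← Real.exp_mul, ← Real.exp_add]; congr 1; ring
      _ ≤ Real.exp (-(c0 * L)) := by
          apply Real.exp_le_exp.2
          have h2 : c0 * D - c ≤ -c0 := by linarith [hc0D.1, hc0D.2]
          nlinarith
      _ = (Real.exp (c0 * L)) ^ (-(1 : ℝ)) := by rw [← Real.exp_mul]; congr 1; ring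
      _ ≤ y ^ (-(1 : ℝ)) := Real.rpow_le_rpow_of_nonpos hyp hye (by norm_num)
      _ ≤ y ^ (-δ) := Real.rpow_le_rpow_of_exponent_le hy (by linarith)
  -- the second event
  have hterm : ∀ n1 ∈ Ico N0 M, prob ν (fun n => ∃ a ∈ R n1, A + (n : ℤ) ≡ a [ZMOD ((g.d ^ n1 : ℕ) : ℤ)]) ≤
      K2 * ϑ ^ n1 := by
    intro n1 hn1
    rw [mem_Ico] at hn1
    have hcast : (((g.d ^ n1 : ℕ)) : ℝ) = (g.d : ℝ) ^ n1 := by push_cast; ring
    have hp : (0 : ℝ) < (g.d : ℝ) ^ n1 := by positivity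
    haveI : NeZero (g.d ^ n1) := ⟨by positivity⟩
    have hle : r * (g.d * n1) ≤ L := by
      have h2 : n1 ≤ ⌊c0 * L / Real.log g.d⌋₊ := by omega
      have h3 : (n1 : ℝ) ≤ c0 * L / Real.log g.d := (Nat.cast_le.2 h2).trans (Nat.floor_le (by positivity))
      have h4 : (n1 : ℝ) * (r * g.d) ≤ L := by
        have h5 : c0 * L / Real.log g.d ≤ L / (r * g.d) := by
          rw [div_le_div_iff₀ hL (by positivity)]
          have h6 := mul_le_mul_of_nonneg_right hc0r hL0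
          have h7 : Real.log g.d / (r * g.d) * L * (r * g.d) = L * Real.log g.d := by field_simp
          nlinarith [mul_le_mul_of_nonneg_right h6 (show (0 : ℝ) ≤ r * g.d by positivity)]
        have h6 := h3.trans h5
        rwa [le_div_iff₀ (by positivity)] at h6
      have h5 : ((r * (g.d * n1) : ℕ) : ℝ) ≤ L := by push_cast; linarith
      exact_mod_cast h5
    have hNb : g.d ^ n1 ≤ q ^ (g.d * n1) := by
      rw [pow_mul]
      apply Nat.pow_le_pow_left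
      calc g.d ≤ 2 ^ g.d := Nat.lt_two_pow_self.le
        _ ≤ q ^ g.d := Nat.pow_le_pow_left hq _
    have h1 := meas_shift (N := g.d ^ n1) (b := q) (L := L) hq (Nat.Coprime.pow_right _ hcop) hΔ0
      (Nat.Coprime.pow_right _ hΔ) hc.le hc1 hlaw hr1 hNb hle (R n1) A
    rw [← hσ, hcast] at h1
    have h4 : (1 + q * σ ^ (2 * r)) ^ (g.d * n1) ≤ Real.exp (δ1 * Real.log g.d / 2 * n1) := by
      have e1 : 1 + q * σ ^ (2 * r) ≤ Real.exp (q * σ ^ (2 * r)) := by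
        have := Real.add_one_le_exp (q * σ ^ (2 * r))
        linarith
      calc (1 + q * σ ^ (2 * r)) ^ (g.d * n1) ≤ (Real.exp (q * σ ^ (2 * r))) ^ (g.d * n1) :=
            pow_le_pow_left₀ (by positivity) e1 _
        _ = Real.exp (q * σ ^ (2 * r) * g.d * n1) := by
            rw [← Real.exp_nat_mul]; congr 1; push_cast; ring
        _ ≤ _ := Real.exp_le_exp.2 (mul_le_mul_of_nonneg_right hσr (Nat.cast_nonneg _))
    have h5 : ((R n1).card : ℝ) / (g.d : ℝ) ^ n1 ≤ K1 * Real.exp (-(δ1 * Real.log g.d * n1)) := by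
      rw [div_le_iff₀ hp]
      refine (hRcard n1).trans (le_of_eq ?_)
      rw [Real.rpow_sub hp, Real.rpow_one]
      have : ((g.d : ℝ) ^ n1) ^ δ1 = Real.exp (δ1 * Real.log g.d * n1) := by
        rw [← Real.rpow_natCast, ← Real.rpow_mul hd0.le, Real.rpow_def_of_pos hd0]
        congr 1; ring
      rw [this, Real.exp_neg]
      field_simp
    have h6 : prob ν (fun n => ∃ a ∈ R n1, A + (n : ℤ) ≡ a [ZMOD ((g.d ^ n1 : ℕ) : ℤ)]) ^ 2 ≤
        (K2 * ϑ ^ n1) ^ 2 := by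
      refine h1.trans ?_
      calc ((R n1).card : ℝ) / (g.d : ℝ) ^ n1 * (r * (q * (1 + q * σ ^ (2 * r)) ^ (g.d * n1)))
          ≤ (K1 * Real.exp (-(δ1 * Real.log g.d * n1))) *
              (r * (q * Real.exp (δ1 * Real.log g.d / 2 * n1))) := by
            apply mul_le_mul h5 _ (by positivity) (by positivity)
            gcongr
        _ = K1 * (r * q) * Real.exp (-(δ1 * Real.log g.d / 2 * n1)) := by
            have : Real.exp (-(δ1 * Real.log g.d / 2 * n1)) =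
                Real.exp (-(δ1 * Real.log g.d * n1)) * Real.exp (δ1 * Real.log g.d / 2 * n1) := by
              rw [← Real.exp_add]; congr 1; ring
            rw [this]; ring
        _ = (K2 * ϑ ^ n1) ^ 2 := by
            rw [hK2, mul_pow, Real.sq_sqrt (by positivity), hϑ, ← pow_mul, ← Real.rpow_natCast,
              ← Real.rpow_mul hd0.le, Real.rpow_def_of_pos hd0]
            congr 2
            push_cast; ring
    exact (sq_le_sq₀ (prob_nonneg hlaw.nonneg _) (by positivity)).1 h6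
  -- the union
  have hun : ∀ m : ℕ, prob ν (fun n => ∃ n1 ∈ Ico N0 m, ∃ a ∈ R n1, A + (n : ℤ) ≡ a [ZMOD ((g.d ^ n1 : ℕ) : ℤ)]) ≤
      ∑ n1 ∈ Ico N0 m, prob ν (fun n => ∃ a ∈ R n1, A + (n : ℤ) ≡ a [ZMOD ((g.d ^ n1 : ℕ) : ℤ)]) := by
    intro m
    induction m with
    | zero =>
      rw [Ico_eq_empty (by omega), sum_empty, prob_eq _ ∅ (by
        intro d
        constructor
        · intro h; simp at h
        · rintro ⟨n1, h2, -⟩; simp at h2)]
      simp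
    | succ m ih =>
      rcases Nat.lt_or_ge m N0 with hmN | hmN
      · rw [Ico_eq_empty (by omega), sum_empty, prob_eq _ ∅ (by
          intro d
          constructor
          · intro h; simp at h
          · rintro ⟨n1, h2, -⟩; simp at h2)]
        simp
      · rw [Finset.sum_Ico_succ_top hmN]
        refine (prob_mono hlaw.nonneg (Q := fun n => (∃ n1 ∈ Ico N0 m, ∃ a ∈ R n1,
          A + (n : ℤ) ≡ a [ZMOD ((g.d ^ n1 : ℕ) : ℤ)]) ∨ (∃ a ∈ R m, A + (n : ℤ) ≡ a [ZMOD ((g.d ^ m : ℕ) : ℤ)])) ?_).trans ?_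
        · rintro n ⟨n1, h2, h3⟩
          rw [mem_Ico] at h2
          rcases Nat.lt_succ_iff_lt_or_eq.1 h2.2 with h4 | h4
          · left; exact ⟨n1, mem_Ico.2 ⟨h2.1, h4⟩, h3⟩
          · right; rw [← h4]; exact h3
        · exact (prob_or hlaw.nonneg _ _).trans (by gcongr)
  have hB : prob ν (fun n => ∃ n1 ∈ Ico N0 M, ∃ a ∈ R n1, A + (n : ℤ) ≡ a [ZMOD ((g.d ^ n1 : ℕ) : ℤ)]) ≤
      K2 * (g.d : ℝ) ^ (δ1 / 4) / (1 - ϑ) * y ^ (-δ) := by
    refine (hun M).trans ((Finset.sum_le_sum hterm).trans ?_)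
    rw [← Finset.mul_sum]
    have hgeo : ∑ n1 ∈ Ico N0 M, ϑ ^ n1 ≤ ϑ ^ N0 / (1 - ϑ) := by
      rcases Nat.lt_or_ge M N0 with h | h
      · rw [Ico_eq_empty (by omega), sum_empty]; positivity
      · rw [geom_sum_Ico' hϑ1.ne h]
        apply div_le_div_of_nonneg_right _ h1ϑ.le
        have : 0 < ϑ ^ M := by positivity
        linarith
    have hϑN : ϑ ^ N0 ≤ (g.d : ℝ) ^ (δ1 / 4) * y ^ (-δ) := by
      have h2 : y / g.d ≤ (g.d : ℝ) ^ N0 := by
        rw [div_le_iff₀ hd0, ← pow_succ]; exact hN02.le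
      calc ϑ ^ N0 = ((g.d : ℝ) ^ N0) ^ (-(δ1 / 4)) := by
            rw [hϑ, ← Real.rpow_natCast, ← Real.rpow_natCast, ← Real.rpow_mul hd0.le, ← Real.rpow_mul hd0.le]
            congr 1; ring
        _ ≤ (y / g.d) ^ (-(δ1 / 4)) := Real.rpow_le_rpow_of_nonpos (by positivity) h2 (by linarith)
        _ = (g.d : ℝ) ^ (δ1 / 4) * y ^ (-(δ1 / 4)) := by
            rw [Real.div_rpow hyp.le hd0.le, Real.rpow_neg hd0.le, div_inv_eq_mul]; ring
        _ ≤ (g.d : ℝ) ^ (δ1 / 4) * y ^ (-δ) := by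
            apply mul_le_mul_of_nonneg_left _ (by positivity)
            exact Real.rpow_le_rpow_of_exponent_le hy (by linarith)
    calc K2 * ∑ n1 ∈ Ico N0 M, ϑ ^ n1 ≤ K2 * (((g.d : ℝ) ^ (δ1 / 4) * y ^ (-δ)) / (1 - ϑ)) := by
          apply mul_le_mul_of_nonneg_left _ hK20.le
          exact hgeo.trans (div_le_div_of_nonneg_right hϑN h1ϑ.le)
      _ = _ := by ring
  refine (prob_mono hlaw.nonneg hsub).trans ((prob_or hlaw.nonneg _ _).trans ?_)
  have hY0δ : 0 ≤ Y0 ^ δ * y ^ (-δ) := by positivity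
  linarith

end Pool.Agent.X17.LC
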