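import Pool.Agent.X17.LC.B
import Pool.Agent.X17.MD.Falls
import Pool.Agent.Y57.HS.Traj2

/-! # Descent and growth of the trajectories of generalised Collatz maps at the values of polynomials at random
integers -/

set_option autoImplicit false

namespace Pool.Agent.X17.LC

open Finset Filter Polynomial
open Pool.Agent.Y927.GP Pool.Agent.H319R2.M
open Pool.Agent.X17.MD (Law prob prob_eq prob_nonneg prob_mono prob_or prob_le_one meas num wt wt_nonneg)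

lemma prob_mono' {b L : ℕ} {ν : Fin L → Fin b → ℝ} (h : ∀ j x, 0 ≤ ν j x) {P Q : ℕ → Prop}
    (hPQ : ∀ n < b ^ L, P n → Q n) : prob ν P ≤ prob ν Q := by
  classical
  rw [prob_eq P ((univ : Finset (Fin L → Fin b)).filter (fun d => P (num b d))) (fun d => by simp),
    prob_eq Q ((univ : Finset (Fin L → Fin b)).filter (fun d => Q (num b d))) (fun d => by simp)]
  apply Finset.sum_le_sum_of_subset_of_nonneg
  · intro d hd
    rw [mem_filter] at hd ⊢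
    refine ⟨hd.1, hPQ _ ?_ hd.2⟩
    rcases Nat.eq_zero_or_pos b with hb | hb
    · subst hb
      rcases Nat.eq_zero_or_pos L with hL | hL
      · subst hL; simp [num]
      · exact (d ⟨0, hL⟩).elim0
    · exact Pool.Agent.X17.MD.num_lt hb d
  · intro d _ _; exact wt_nonneg h d

/-- from large `L` to all `L` -/
lemma all_L {δ K : ℝ} (hδ : 0 < δ) (hK : 0 < K) (L1 : ℕ) {p : ℝ} {L : ℕ} (h1 : p ≤ 1)
    (h : L1 ≤ L → p ≤ K * Real.exp (-(δ * L))) : p ≤ (K + Real.exp (δ * L1)) * Real.exp (-(δ * L)) := by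
  rcases Nat.lt_or_ge L L1 with hL | hL
  · have h2 : (1 : ℝ) ≤ Real.exp (δ * L1) * Real.exp (-(δ * L)) := by
      rw [← Real.exp_add]
      apply Real.one_le_exp
      have : (L : ℝ) ≤ L1 := by exact_mod_cast hL.le
      nlinarith
    have h3 : 0 ≤ K * Real.exp (-(δ * L)) := by positivity
    linarith
  · have h2 := h hL
    have h3 : 0 ≤ Real.exp (δ * L1) * Real.exp (-(δ * L)) := by positivity
    linarith

/-- the law for exponentially long ranges -/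
theorem traj_exp {g : GM} {b : ℤ → ℤ} {e : ℤ → ℕ} {C : Finset (ℤ × ℕ)} {ρ : ℤ × ℕ → ℝ} (hf : g.Fac b e)
    (hC : g.Cls e C ρ) {f : ℤ[X]} (hdeg : 1 ≤ f.natDegree) (q : ℕ) (hq : 2 ≤ q) (hcop : Nat.Coprime q g.d)
    {c : ℝ} (hc : 0 < c) (hc1 : c ≤ 1) {ε : ℝ} (hε : 0 < ε) (H : ℝ) :
    ∃ c0 δ K : ℝ, 0 < c0 ∧ 0 < δ ∧ 0 < K ∧ ∀ (L Δ : ℕ) (ν : Fin L → Fin q → ℝ), 0 < Δ → Nat.Coprime Δ g.d →
      Law q Δ c ν → ∀ A : ℤ,
      prob ν (fun n => f.eval (A + (n : ℤ)) ∈ g.SC C ∧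
        ¬ (Real.exp (c0 * L) ^ H ≤ |((f.eval (A + (n : ℤ)) : ℤ) : ℝ)| ∧
          Typ g (mu g C ρ) ε (Real.exp (c0 * L)) (f.eval (A + (n : ℤ))))) ≤ K * Real.exp (-(δ * L)) := by
  obtain ⟨c0, δ, K, hc0, hδ, hK, h⟩ := traj hf hC hdeg q hq hcop hc hc1 hε H
  refine ⟨c0, c0 * δ, K, hc0, by positivity, hK, fun L Δ ν hΔ0 hΔ hlaw A => ?_⟩
  have hL0 : (0 : ℝ) ≤ L := Nat.cast_nonneg _
  have h1 := h L Δ ν hΔ0 hΔ hlaw A (Real.exp (c0 * L)) (Real.one_le_exp (by positivity))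
  refine (prob_mono hlaw.nonneg (fun n hn => ⟨hn.1, Real.exp (c0 * L), le_rfl, le_rfl, hn.2⟩)).trans
    (h1.trans (le_of_eq ?_))
  rw [← Real.exp_mul]
  congr 2
  ring

/-- Contracting classes: the trajectory comes down. -/
theorem drop {g : GM} {b : ℤ → ℤ} {e : ℤ → ℕ} {C : Finset (ℤ × ℕ)} {ρ : ℤ × ℕ → ℝ} (hf : g.Fac b e)
    (hC : g.Cls e C ρ) (hμ : mu g C ρ < 0) {f : ℤ[X]} (hdeg : 1 ≤ f.natDegree) (q : ℕ) (hq : 2 ≤ q)
    (hcop : Nat.Coprime q g.d) {c : ℝ} (hc : 0 < c) (hc1 : c ≤ 1) : ∃ c0 c2 δ K : ℝ, 0 < c0 ∧ 0 < c2 ∧ 0 < δ ∧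
    0 < K ∧ ∀ (L Δ : ℕ) (ν : Fin L → Fin q → ℝ), 0 < Δ → Nat.Coprime Δ g.d → Law q Δ c ν → ∀ A : ℤ,
      prob ν (fun n => f.eval (A + (n : ℤ)) ∈ g.SC C ∧
        ¬ (Real.exp (c0 * L) ≤ |((f.eval (A + (n : ℤ)) : ℤ) : ℝ)| ∧
          ∃ k : ℕ, |((g.T^[k] (f.eval (A + (n : ℤ))) : ℤ) : ℝ)| ≤
            Real.exp (-(c2 * L)) * |((f.eval (A + (n : ℤ)) : ℤ) : ℝ)|)) ≤ K * Real.exp (-(δ * L)) := by
  have hd2 := g.two_le
  have hd1 : (1 : ℝ) < g.d := by have := g.dr; linarith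
  have hd0 : (0 : ℝ) < g.d := by linarith
  have hL : 0 < Real.log g.d := Real.log_pos hd1
  obtain ⟨μ, hμdef⟩ : ∃ μ, μ = mu g C ρ := ⟨_, rfl⟩
  rw [← hμdef] at hμ
  obtain ⟨c0, δ, K, hc0, hδ, hK, h⟩ := traj_exp hf hC hdeg q hq hcop hc hc1 (ε := -μ / (2 * Real.log g.d))
    (by apply div_pos <;> linarith) 1
  rw [← hμdef] at h
  have hc2 : 0 < c0 * (-μ) / (4 * Real.log g.d) := by
    apply div_pos
    · exact mul_pos hc0 (by linarith)
    · positivity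
  have hev : ∀ᶠ s : ℕ in atTop, -μ ≤ c0 * (-μ) / (4 * Real.log g.d) * s :=
    (tendsto_natCast_atTop_atTop.const_mul_atTop hc2).eventually (eventually_ge_atTop _)
  obtain ⟨L1, hL1⟩ := eventually_atTop.1 hev
  refine ⟨c0, c0 * (-μ) / (4 * Real.log g.d), δ, K + Real.exp (δ * L1), hc0, hc2, hδ, by positivity,
    fun L Δ ν hΔ0 hΔ hlaw A => ?_⟩
  apply all_L hδ hK L1 (prob_le_one hlaw.nonneg hlaw.one _)
  intro hLL
  refine (prob_mono hlaw.nonneg (fun n hn => ?_)).trans (h L Δ ν hΔ0 hΔ hlaw A)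
  refine ⟨hn.1, fun h3 => hn.2 ?_⟩
  rw [Real.rpow_one] at h3
  obtain ⟨h4, h5⟩ := h3
  have hcs : 0 ≤ c0 * L / Real.log g.d := by positivity
  have hfl := Nat.floor_le hcs
  have hfl2 := Nat.lt_floor_add_one (c0 * L / Real.log g.d)
  refine ⟨h4, ⌊c0 * L / Real.log g.d⌋₊, ?_⟩
  set k := ⌊c0 * L / Real.log g.d⌋₊ with hk
  have h6 := (h5 k (by
    have h7 : (k : ℝ) * Real.log g.d ≤ c0 * L := by
      rwa [le_div_iff₀ hL] at hfl
    calc (g.d : ℝ) ^ k = Real.exp (k * Real.log g.d) := by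
          rw [Real.exp_nat_mul, Real.exp_log hd0]
      _ ≤ Real.exp (c0 * L) := Real.exp_le_exp.2 h7)).2
  refine h6.trans ?_
  apply mul_le_mul_of_nonneg_right _ (abs_nonneg _)
  rw [← Real.exp_mul, ← Real.exp_add]
  apply Real.exp_le_exp.2
  have h8 := hL1 L hLL
  have h9 : (k : ℝ) * μ ≤ (c0 * L / Real.log g.d - 1) * μ := by
    apply mul_le_mul_of_nonpos_right _ hμ.le
    linarith
  have h10 : c0 * L * (-μ / (2 * Real.log g.d)) + (c0 * L / Real.log g.d - 1) * μ =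
      -(2 * (c0 * (-μ) / (4 * Real.log g.d) * L)) - μ := by
    field_simp
    ring
  linarith

/-- Expanding classes: the trajectory goes up. -/
theorem rise {g : GM} {b : ℤ → ℤ} {e : ℤ → ℕ} {C : Finset (ℤ × ℕ)} {ρ : ℤ × ℕ → ℝ} (hf : g.Fac b e)
    (hC : g.Cls e C ρ) (hμ : 0 < mu g C ρ) {f : ℤ[X]} (hdeg : 1 ≤ f.natDegree) (q : ℕ) (hq : 2 ≤ q)
    (hcop : Nat.Coprime q g.d) {c : ℝ} (hc : 0 < c) (hc1 : c ≤ 1) : ∃ c0 c2 δ K : ℝ, 0 < c0 ∧ 0 < c2 ∧ 0 < δ ∧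
    0 < K ∧ ∀ (L Δ : ℕ) (ν : Fin L → Fin q → ℝ), 0 < Δ → Nat.Coprime Δ g.d → Law q Δ c ν → ∀ A : ℤ,
      prob ν (fun n => f.eval (A + (n : ℤ)) ∈ g.SC C ∧
        ¬ (Real.exp (c0 * L) ≤ |((f.eval (A + (n : ℤ)) : ℤ) : ℝ)| ∧
          ∃ k : ℕ, Real.exp (c2 * L) * |((f.eval (A + (n : ℤ)) : ℤ) : ℝ)| ≤
            |((g.T^[k] (f.eval (A + (n : ℤ))) : ℤ) : ℝ)|)) ≤ K * Real.exp (-(δ * L)) := by
  have hd2 := g.two_le
  have hd1 : (1 : ℝ) < g.d := by have := g.dr; linarith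
  have hd0 : (0 : ℝ) < g.d := by linarith
  have hL : 0 < Real.log g.d := Real.log_pos hd1
  obtain ⟨μ, hμdef⟩ : ∃ μ, μ = mu g C ρ := ⟨_, rfl⟩
  rw [← hμdef] at hμ
  obtain ⟨c0, δ, K, hc0, hδ, hK, h⟩ := traj_exp hf hC hdeg q hq hcop hc hc1 (ε := μ / (2 * Real.log g.d))
    (by positivity) 1
  rw [← hμdef] at h
  have hc2 : 0 < c0 * μ / (4 * Real.log g.d) := by positivity
  have hev : ∀ᶠ s : ℕ in atTop, μ ≤ c0 * μ / (4 * Real.log g.d) * s :=
    (tendsto_natCast_atTop_atTop.const_mul_atTop hc2).eventually (eventually_ge_atTop _)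
  obtain ⟨L1, hL1⟩ := eventually_atTop.1 hev
  refine ⟨c0, c0 * μ / (4 * Real.log g.d), δ, K + Real.exp (δ * L1), hc0, hc2, hδ, by positivity,
    fun L Δ ν hΔ0 hΔ hlaw A => ?_⟩
  apply all_L hδ hK L1 (prob_le_one hlaw.nonneg hlaw.one _)
  intro hLL
  refine (prob_mono hlaw.nonneg (fun n hn => ?_)).trans (h L Δ ν hΔ0 hΔ hlaw A)
  refine ⟨hn.1, fun h3 => hn.2 ?_⟩
  rw [Real.rpow_one] at h3
  obtain ⟨h4, h5⟩ := h3
  have hcs : 0 ≤ c0 * L / Real.log g.d := by positivity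
  have hfl := Nat.floor_le hcs
  have hfl2 := Nat.lt_floor_add_one (c0 * L / Real.log g.d)
  refine ⟨h4, ⌊c0 * L / Real.log g.d⌋₊, ?_⟩
  set k := ⌊c0 * L / Real.log g.d⌋₊ with hk
  have h6 := (h5 k (by
    have h7 : (k : ℝ) * Real.log g.d ≤ c0 * L := by
      rwa [le_div_iff₀ hL] at hfl
    calc (g.d : ℝ) ^ k = Real.exp (k * Real.log g.d) := by
          rw [Real.exp_nat_mul, Real.exp_log hd0]
      _ ≤ Real.exp (c0 * L) := Real.exp_le_exp.2 h7)).1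
  refine le_trans ?_ h6
  apply mul_le_mul_of_nonneg_right _ (abs_nonneg _)
  rw [← Real.exp_mul, ← Real.exp_add]
  apply Real.exp_le_exp.2
  have h8 := hL1 L hLL
  have h9 : (c0 * L / Real.log g.d - 1) * μ ≤ (k : ℝ) * μ := by
    apply mul_le_mul_of_nonneg_right _ hμ.le
    linarith
  have h10 : c0 * L * -(μ / (2 * Real.log g.d)) + (c0 * L / Real.log g.d - 1) * μ =
      2 * (c0 * μ / (4 * Real.log g.d) * L) - μ := by
    field_simp
    ring
  linarith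

/-- the sizes of the values -/
lemma size_up (q : ℕ) (hq : 2 ≤ q) (f : ℤ[X]) (B : ℝ) : ∃ B' : ℝ, 0 < B' ∧ ∀ (L : ℕ) (A : ℤ) (n : ℕ), 1 ≤ L →
    |(A : ℝ)| ≤ Real.exp (B * L) → n < q ^ L → |((f.eval (A + (n : ℤ)) : ℤ) : ℝ)| ≤ Real.exp (B' * L) := by
  obtain ⟨C, hC, h⟩ := growth_up f
  have hlq : 0 < Real.log q := Real.log_pos (by exact_mod_cast (by omega : 1 < q))
  set C' : ℝ := C + |((f.eval 0 : ℤ) : ℝ)| with hC'
  have hab : 0 ≤ |((f.eval 0 : ℤ) : ℝ)| := abs_nonneg _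
  have hC'1 : 1 ≤ C' := by rw [hC']; linarith
  set B1 : ℝ := |B| + Real.log q + 1 with hB1
  have hB10 : 0 < B1 := by positivity
  refine ⟨Real.log C' + f.natDegree * B1 + 1, by
    have := Real.log_nonneg hC'1
    positivity, fun L A n hL hA hn => ?_⟩
  have hLR : (1 : ℝ) ≤ L := by exact_mod_cast hL
  have hbase : |((A + (n : ℤ) : ℤ) : ℝ)| ≤ Real.exp (B1 * L) := by
    have h1 : (n : ℝ) ≤ Real.exp (Real.log q * L) := by
      have h2 : (n : ℝ) ≤ (q : ℝ) ^ L := by exact_mod_cast hn.le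
      refine h2.trans (le_of_eq ?_)
      rw [mul_comm, Real.exp_nat_mul, Real.exp_log (by positivity)]
    have h3 : |((A + (n : ℤ) : ℤ) : ℝ)| ≤ |(A : ℝ)| + n := by
      push_cast
      refine (abs_add_le _ _).trans ?_
      rw [abs_of_nonneg (Nat.cast_nonneg n : (0 : ℝ) ≤ n)]
    have h4 : Real.exp (B * L) ≤ Real.exp ((|B| + Real.log q) * L) := by
      apply Real.exp_le_exp.2
      have := le_abs_self B
      nlinarith
    have h5 : Real.exp (Real.log q * L) ≤ Real.exp ((|B| + Real.log q) * L) := by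
      apply Real.exp_le_exp.2
      have := abs_nonneg B
      nlinarith
    have h6 : (2 : ℝ) ≤ Real.exp L := by
      have := Real.add_one_le_exp (L : ℝ)
      linarith
    calc |((A + (n : ℤ) : ℤ) : ℝ)| ≤ 2 * Real.exp ((|B| + Real.log q) * L) := by linarith
      _ ≤ Real.exp L * Real.exp ((|B| + Real.log q) * L) :=
          mul_le_mul_of_nonneg_right h6 (Real.exp_pos _).le
      _ = Real.exp (B1 * L) := by rw [← Real.exp_add, hB1]; congr 1; ring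
  have hE1 : 1 ≤ Real.exp (B1 * L) := Real.one_le_exp (by positivity)
  have hval : |((f.eval (A + (n : ℤ)) : ℤ) : ℝ)| ≤ C' * Real.exp (B1 * L) ^ f.natDegree := by
    by_cases h0 : A + (n : ℤ) = 0
    · rw [h0]
      have h1 : (1 : ℝ) ≤ Real.exp (B1 * L) ^ f.natDegree := one_le_pow₀ hE1
      have h2 : C' * 1 ≤ C' * Real.exp (B1 * L) ^ f.natDegree := mul_le_mul_of_nonneg_left h1 (by linarith)
      linarith
    · have h1 : (1 : ℝ) ≤ |((A + (n : ℤ) : ℤ) : ℝ)| := by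
        have := Int.one_le_abs h0
        exact_mod_cast this
      refine (h _ h1).trans ?_
      have h2 : |((A + (n : ℤ) : ℤ) : ℝ)| ^ f.natDegree ≤ Real.exp (B1 * L) ^ f.natDegree :=
        pow_le_pow_left₀ (abs_nonneg _) hbase _
      have h3 : 0 ≤ Real.exp (B1 * L) ^ f.natDegree := by positivity
      calc C * |((A + (n : ℤ) : ℤ) : ℝ)| ^ f.natDegree ≤ C * Real.exp (B1 * L) ^ f.natDegree :=
            mul_le_mul_of_nonneg_left h2 (by linarith)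
        _ ≤ C' * Real.exp (B1 * L) ^ f.natDegree := mul_le_mul_of_nonneg_right (by linarith) h3
  refine hval.trans ?_
  calc C' * Real.exp (B1 * L) ^ f.natDegree = Real.exp (Real.log C' + f.natDegree * (B1 * L)) := by
        rw [Real.exp_add, Real.exp_log (by linarith), Real.exp_nat_mul]
    _ ≤ _ := by
        apply Real.exp_le_exp.2
        have h5 := Real.log_nonneg hC'1
        nlinarith

end Pool.Agent.X17.LC
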