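import Pool.Agent.X17.MQ.Par
import Pool.Agent.Y57.HS.Cls

/-! # Trajectories of generalised Collatz maps at the values of polynomials at random integers -/

set_option autoImplicit false

namespace Pool.Agent.X17.LC

open Finset Filter Polynomial ZMod
open Pool.Agent.Y927.GP Pool.Agent.H319R2.M
open Pool.Agent.X17.MD

/-- the distance of the law of the class modulo `N` from the uniform law -/
noncomputable def dst {b L : ℕ} (ν : Fin L → Fin b → ℝ) (N : ℕ) [NeZero N] : ℝ :=
  ∑ z : ZMod N, |Pool.Agent.X17.MD.law (wt ν) (fun d => ((num b d : ℕ) : ZMod N)) z - 1 / N|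

/-- **equidistribution** modulo `N`, explicit form -/
theorem dist_gen {b : ℕ} (hb2 : 2 ≤ b) {c : ℝ} (hc : 0 < c) (hc1 : c ≤ 1) :
    ∃ δ C : ℝ, 0 < δ ∧ 0 < C ∧ ∀ (L J Δ N : ℕ) [NeZero N] (ν : Fin L → Fin b → ℝ), 1 ≤ J →
      (J : ℝ) * Real.log L ≤ δ * L → N ≤ b ^ J → Nat.Coprime b N → 0 < Δ → Nat.Coprime Δ N → Law b Δ c ν →
      dst ν N ≤ C * Real.exp (-(δ * (L / J))) := by
  have hbR : (2 : ℝ) ≤ b := by exact_mod_cast hb2
  have hb0 : (0 : ℝ) < b := by linarith
  have hb4 : 4 / (b : ℝ) ^ 4 < 1 := by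
    rw [div_lt_one (by positivity)]
    calc (4 : ℝ) < 2 ^ 4 := by norm_num
      _ ≤ (b : ℝ) ^ 4 := pow_le_pow_left₀ (by norm_num) hbR 4
  have hb40 : 0 < 4 / (b : ℝ) ^ 4 := by positivity
  set ρ : ℝ := 1 - c * (4 / (b : ℝ) ^ 4) with hρ
  have hρ0 : 0 < ρ := by rw [hρ]; nlinarith
  have hρ1 : ρ < 1 := by rw [hρ]; nlinarith
  set lam : ℝ := -Real.log ρ with hlam
  have hl0 : 0 < lam := by rw [hlam]; have := Real.log_neg hρ0 hρ1; linarith
  set δ : ℝ := min 1 (lam / 4) with hδ
  have hδ0 : 0 < δ := lt_min one_pos (by positivity)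
  have hδ1 : δ ≤ 1 := min_le_left _ _
  have hδl : δ ≤ lam / 4 := min_le_right _ _
  set K : ℝ := 4 / lam * (Real.exp lam * (b * Real.exp (b * Real.exp lam))) with hK
  have hK0 : 0 < K := by positivity
  refine ⟨δ, max (2 * Real.exp 2) (√K), hδ0, lt_max_of_lt_left (by positivity),
    fun L t Δ N _ ν ht htL hNb hbN hΔ0 hΔ hlaw => ?_⟩
  have htR : (1 : ℝ) ≤ t := by exact_mod_cast ht
  have ht0 : (0 : ℝ) < t := by linarith
  have hS0 : 0 ≤ dst ν N := Finset.sum_nonneg fun z _ => abs_nonneg _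
  have hS2 : dst ν N ≤ 2 := by
    unfold dst
    calc ∑ z : ZMod N, |Pool.Agent.X17.MD.law (wt ν) (fun d => ((num b d : ℕ) : ZMod N)) z - 1 / N|
        ≤ ∑ z : ZMod N, (Pool.Agent.X17.MD.law (wt ν) (fun d => ((num b d : ℕ) : ZMod N)) z + 1 / N) := by
          apply Finset.sum_le_sum
          intro z _
          have h2 := Pool.Agent.X17.MQ.law_nonneg hlaw.nonneg z
          have h3 : (0 : ℝ) ≤ 1 / N := by positivity
          rw [abs_le]
          constructor <;> linarith
      _ = 2 := by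
          rw [Finset.sum_add_distrib, Pool.Agent.X17.MQ.law_sum hlaw.one, Finset.sum_const, card_univ, ZMod.card,
            nsmul_eq_mul]
          have : (N : ℝ) ≠ 0 := by exact_mod_cast NeZero.ne N
          field_simp
          norm_num
  rcases Nat.lt_or_ge L 3 with hL | hL
  · refine hS2.trans ?_
    have h1 : δ * ((L : ℝ) / t) ≤ 2 := by
      have h2 : (L : ℝ) ≤ 2 := by exact_mod_cast (by omega : L ≤ 2)
      have h3 : (L : ℝ) / t ≤ 2 := by
        rw [div_le_iff₀ ht0]; nlinarith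
      have h4 : 0 ≤ (L : ℝ) / t := by positivity
      nlinarith
    calc (2 : ℝ) = 2 * Real.exp 2 * Real.exp (-2) := by
          rw [mul_assoc, ← Real.exp_add]; norm_num
      _ ≤ max (2 * Real.exp 2) (√K) * Real.exp (-(δ * (L / t))) := by
          apply mul_le_mul (le_max_left _ _) (Real.exp_le_exp.2 (by linarith)) (Real.exp_pos _).le
          exact le_trans (by positivity) (le_max_left _ _)
  have hLR : (3 : ℝ) ≤ L := by exact_mod_cast hL
  have hL0 : (0 : ℝ) < L := by linarith
  have hlogL : 1 ≤ Real.log L := by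
    have h1 : Real.exp 1 ≤ 3 := by have := Real.exp_one_lt_d9; linarith
    rw [Real.le_log_iff_exp_le hL0]
    linarith
  have htle : (t : ℝ) ≤ L := by nlinarith
  have htleN : t ≤ L := by exact_mod_cast htle
  set x : ℝ := (L : ℝ) / t with hx
  have hx1 : Real.log L ≤ δ * x := by
    rw [hx, mul_div_assoc', le_div_iff₀ ht0]
    linarith
  obtain ⟨r, hr⟩ : ∃ r, L / t = r := ⟨_, rfl⟩
  have hr1 : 1 ≤ r := by rw [← hr]; exact (Nat.le_div_iff_mul_le (by omega)).2 (by omega)
  have hrt : r * t ≤ L := by rw [← hr]; exact Nat.div_mul_le_self L t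
  have hrx : (r : ℝ) ≤ x := by
    rw [hx, le_div_iff₀ ht0]; exact_mod_cast hrt
  have hrx' : x ≤ r + 1 := by
    rw [hx, div_le_iff₀ ht0]
    have : L < (r + 1) * t := by
      rw [← hr, Nat.add_mul, one_mul]
      exact Nat.lt_div_mul_add (by omega)
    have h5 : (L : ℝ) < ((r + 1 : ℕ) : ℝ) * t := by exact_mod_cast this
    push_cast at h5
    exact h5.le
  have hx0 : 0 ≤ x := by positivity
  have hρr : ρ ^ r ≤ Real.exp lam * Real.exp (-(lam * x)) := by
    have h1 : ρ ^ r = Real.exp (-(lam * r)) := by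
      rw [hlam, neg_mul, neg_neg, mul_comm, Real.exp_nat_mul, Real.exp_log hρ0]
    rw [h1, ← Real.exp_add]
    apply Real.exp_le_exp.2
    nlinarith
  have hρr2 : (b : ℝ) * ρ ^ r * t ≤ b * Real.exp lam := by
    have h1 : Real.exp (-(lam * x)) ≤ 1 / L := by
      have e : 1 / (L : ℝ) = Real.exp (-Real.log L) := by
        rw [Real.exp_neg, Real.exp_log hL0, one_div]
      rw [e]
      apply Real.exp_le_exp.2
      nlinarith
    have h2 : ρ ^ r * t ≤ Real.exp lam := by
      calc ρ ^ r * t ≤ (Real.exp lam * (1 / L)) * L := by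
            apply mul_le_mul _ htle ht0.le (by positivity)
            exact hρr.trans (mul_le_mul_of_nonneg_left h1 (Real.exp_pos _).le)
        _ = Real.exp lam := by field_simp
    calc (b : ℝ) * ρ ^ r * t = b * (ρ ^ r * t) := by ring
      _ ≤ _ := mul_le_mul_of_nonneg_left h2 hb0.le
  have hpow : (1 + b * ρ ^ r) ^ t ≤ Real.exp (b * Real.exp lam) := by
    calc (1 + b * ρ ^ r) ^ t ≤ (Real.exp (b * ρ ^ r)) ^ t :=
          pow_le_pow_left₀ (by positivity) (by have := Real.add_one_le_exp (b * ρ ^ r); linarith) t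
      _ = Real.exp (b * ρ ^ r * t) := by rw [← Real.exp_nat_mul]; congr 1; ring
      _ ≤ _ := Real.exp_le_exp.2 hρr2
  have hxe : x ≤ 4 / lam * Real.exp (lam * x / 4) := by
    have h1 := Real.add_one_le_exp (lam * x / 4)
    have h2 : lam * x / 4 ≤ Real.exp (lam * x / 4) := by linarith
    calc x = 4 / lam * (lam * x / 4) := by field_simp
      _ ≤ _ := mul_le_mul_of_nonneg_left h2 (by positivity)
  have htv : dst ν N ^ 2 ≤ r * (ρ ^ r * (b * (1 + b * ρ ^ r) ^ t)) :=
    Pool.Agent.X17.MQ.tv (N := N) (b := b) (Δ := Δ) (L := L) hb2 hbN hΔ0 hΔ hc.le hc1 hlaw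
    (r := r) (J := t) hr1 hNb hrt
  have hsq : dst ν N ^ 2 ≤ (√K * Real.exp (-(δ * x))) ^ 2 := by
    refine htv.trans ?_
    calc (r : ℝ) * (ρ ^ r * (b * (1 + b * ρ ^ r) ^ t))
        ≤ (4 / lam * Real.exp (lam * x / 4)) * ((Real.exp lam * Real.exp (-(lam * x))) *
            (b * Real.exp (b * Real.exp lam))) := by
          apply mul_le_mul (hrx.trans hxe) _ (by positivity) (by positivity)
          apply mul_le_mul hρr _ (by positivity) (by positivity)
          exact mul_le_mul_of_nonneg_left hpow hb0.le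
      _ = K * Real.exp (-(3 * lam * x / 4)) := by
          rw [hK]
          have : Real.exp (-(3 * lam * x / 4)) = Real.exp (lam * x / 4) * Real.exp (-(lam * x)) := by
            rw [← Real.exp_add]; congr 1; ring
          rw [this]; ring
      _ ≤ K * Real.exp (-(2 * (δ * x))) := by
          apply mul_le_mul_of_nonneg_left _ hK0.le
          apply Real.exp_le_exp.2
          nlinarith
      _ = (√K * Real.exp (-(δ * x))) ^ 2 := by
          rw [mul_pow, Real.sq_sqrt hK0.le, ← Real.exp_nat_mul]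
          congr 2
          push_cast; ring
  have h6 : dst ν N ≤ √K * Real.exp (-(δ * x)) := (sq_le_sq₀ hS0 (by positivity)).1 hsq
  have h7 : √K ≤ max (2 * Real.exp 2) (√K) := le_max_right _ _
  have h8 : 0 < Real.exp (-(δ * x)) := Real.exp_pos _
  calc dst ν N ≤ √K * Real.exp (-(δ * x)) := h6
    _ ≤ max (2 * Real.exp 2) (√K) * Real.exp (-(δ * x)) := mul_le_mul_of_nonneg_right h7 h8.le

/-- the probability of an event which depends on the class modulo `N` -/
lemma prob_class {b L N : ℕ} [NeZero N] (ν : Fin L → Fin b → ℝ) (P : ℕ → Prop) (Z : Finset (ZMod N))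
    (hPZ : ∀ n : ℕ, P n ↔ (n : ZMod N) ∈ Z) :
    |prob ν P - Z.card / N| ≤ dst ν N := by
  classical
  have h1 : prob ν P = ∑ z ∈ Z, Pool.Agent.X17.MD.law (wt ν) (fun d => ((num b d : ℕ) : ZMod N)) z := by
    unfold prob Pool.Agent.X17.MD.law
    rw [Finset.sum_comm, Finset.sum_filter]
    apply Finset.sum_congr rfl
    intro d _
    rw [Finset.sum_ite_eq]
    by_cases h : P (num b d)
    · rw [if_pos h, if_pos ((hPZ _).1 h)]
    · rw [if_neg h, if_neg (fun h' => h ((hPZ _).2 h'))]
  rw [h1]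
  have e : (Z.card : ℝ) / N = ∑ _z ∈ Z, 1 / (N : ℝ) := by
    rw [Finset.sum_const, nsmul_eq_mul]; ring
  rw [e, ← Finset.sum_sub_distrib]
  refine (Finset.abs_sum_le_sum_abs _ _).trans ?_
  exact Finset.sum_le_sum_of_subset_of_nonneg (subset_univ _) fun z _ _ => abs_nonneg _

/-- numbers with different digits are different -/
lemma num_inj {b L : ℕ} (hb : 0 < b) : Function.Injective (num b (L := L)) := by
  intro d d' h
  have key : ∀ (d : Fin L → Fin b) (j : Fin L), (num b d / b ^ (j : ℕ)) % b = d j := by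
    intro d j
    have h1 : num b d = ∑ i ∈ range L, (if hi : i < L then (d ⟨i, hi⟩ : ℕ) else 0) * b ^ i := by
      unfold num
      rw [← Fin.sum_univ_eq_sum_range (fun i => (if hi : i < L then (d ⟨i, hi⟩ : ℕ) else 0) * b ^ i) L]
      apply Finset.sum_congr rfl
      intro i _
      rw [dif_pos i.2]
    obtain ⟨a, ha⟩ : ∃ a : ℕ → ℕ, a = fun i => if hi : i < L then (d ⟨i, hi⟩ : ℕ) else 0 := ⟨_, rfl⟩
    have hab : ∀ i, a i < b := by
      intro i
      rw [ha]
      simp only
      split_ifs with hi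
      · exact (d ⟨i, hi⟩).2
      · exact hb
    have haj : a j = d j := by rw [ha]; simp
    have h2 : ∀ m : ℕ, ∑ i ∈ range m, a i * b ^ i < b ^ m := by
      intro m
      induction m with
      | zero => simp
      | succ m ih =>
        rw [Finset.sum_range_succ, pow_succ]
        have h3 := hab m
        have h4 : (a m + 1) * b ^ m ≤ b * b ^ m := Nat.mul_le_mul_right _ h3
        nlinarith
    have h3 : num b d = b ^ (j : ℕ) * (a j + b * ∑ i ∈ range (L - j - 1), a (j + 1 + i) * b ^ i) +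
        ∑ i ∈ range (j : ℕ), a i * b ^ i := by
      rw [h1]
      have e : L = (j : ℕ) + 1 + (L - j - 1) := by have := j.2; omega
      have e2 : ∑ i ∈ range L, (if hi : i < L then (d ⟨i, hi⟩ : ℕ) else 0) * b ^ i = ∑ i ∈ range L, a i * b ^ i := by
        rw [ha]
      rw [e2]
      conv_lhs => rw [e]
      rw [Finset.sum_range_add, Finset.sum_range_succ]
      have e3 : ∑ i ∈ range (L - j - 1), a (j + 1 + i) * b ^ ((j : ℕ) + 1 + i) =
          b ^ (j : ℕ) * (b * ∑ i ∈ range (L - j - 1), a (j + 1 + i) * b ^ i) := by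
        rw [Finset.mul_sum, Finset.mul_sum]
        apply Finset.sum_congr rfl
        intro i _
        ring
      rw [e3]; ring
    rw [h3, Nat.mul_add_div (by positivity), Nat.div_eq_of_lt (h2 j), add_zero, Nat.add_mul_mod_self_left,
      Nat.mod_eq_of_lt (hab j), haj]
  funext j
  apply Fin.ext
  rw [← key d j, ← key d' j, h]

/-- sets of few digit vectors have a small probability -/
lemma few_vectors {b L Δ : ℕ} {c : ℝ} (hΔ : 0 < Δ) {ν : Fin L → Fin b → ℝ} (h : Law b Δ c ν)
    (S : Finset (Fin L → Fin b)) : ∑ d ∈ S, wt ν d ≤ S.card * (1 - c) ^ L := by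
  have h1 : ∀ j x, ν j x ≤ 1 - c := by
    intro j x
    obtain ⟨e, e', he, h2, h3⟩ := h.two j
    have hne : e ≠ e' := by
      intro h'
      rw [h'] at he
      omega
    obtain ⟨z, hz, hzc⟩ : ∃ z, z ≠ x ∧ c ≤ ν j z := by
      by_cases hx : e = x
      · exact ⟨e', fun h' => hne (hx.trans h'.symm), h3⟩
      · exact ⟨e, hx, h2⟩
    have h4 := h.one j
    have h5 : ν j x + ν j z ≤ ∑ x, ν j x := by
      rw [← Finset.sum_pair (f := fun x => ν j x) (Ne.symm hz)]
      exact Finset.sum_le_sum_of_subset_of_nonneg (subset_univ _) fun i _ _ => h.nonneg j i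
    linarith
  calc ∑ d ∈ S, wt ν d ≤ ∑ _d ∈ S, (1 - c) ^ L := by
        apply Finset.sum_le_sum
        intro d _
        unfold wt
        calc ∏ j, ν j (d j) ≤ ∏ _j : Fin L, (1 - c) :=
              Finset.prod_le_prod (fun j _ => h.nonneg j _) (fun j _ => h1 j _)
          _ = (1 - c) ^ L := by rw [Finset.prod_const, card_univ, Fintype.card_fin]
    _ = S.card * (1 - c) ^ L := by rw [Finset.sum_const, nsmul_eq_mul]

end Pool.Agent.X17.LC
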