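import Pool.Agent.X17.LC.A
import Pool.Agent.H319R2.LeighBridge

/-! # The residues of the terms of the trajectories of generalised Collatz maps at random integers -/

set_option autoImplicit false

namespace Pool.Agent.X17.LC

open Finset Polynomial
open Pool.Agent.X17.MD (Law prob prob_eq prob_nonneg prob_mono prob_or prob_le_one meas num wt wt_nonneg)
open Pool.Agent.H319R2.Leigh (T Data)

section

variable {d : ℕ} {m r b : ℤ → ℤ} {e : ℤ → ℕ}

lemma T_spec (D : Data d m r b e) (x : ℤ) : (d : ℤ) * T d m r x = m (x % d) * x - r (x % d) := by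
  have hd : (0 : ℤ) < d := by have := D.two_le; omega
  have h0 := Int.emod_nonneg x hd.ne'
  have h1 := Int.emod_lt_of_pos x hd
  have h2 := (D.cong (x % d) h0 h1)
  have h3 : m (x % d) * x ≡ r (x % d) [ZMOD d] := by
    refine Int.ModEq.trans ?_ h2.symm
    rw [mul_comm]
    exact Int.ModEq.mul_right _ (Int.mod_modEq _ _).symm
  unfold T
  apply Int.mul_ediv_cancel'
  exact h3.symm.dvd

lemma T_congr (D : Data d m r b e) {s : ℕ} {x y : ℤ} (h : x ≡ y [ZMOD (d : ℤ) ^ (s + 1)]) :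
    T d m r x ≡ T d m r y [ZMOD (d : ℤ) ^ s] := by
  have hd : (0 : ℤ) < d := by have := D.two_le; omega
  have h1 : x % d = y % d := h.of_dvd (dvd_pow_self _ (by omega))
  have e1 := T_spec D x
  have e2 := T_spec D y
  rw [h1] at e1
  rw [Int.modEq_iff_dvd] at h ⊢
  obtain ⟨k, hk⟩ := h
  refine ⟨m (y % d) * k, ?_⟩
  have h3 : (d : ℤ) * (T d m r y - T d m r x) = d * ((d : ℤ) ^ s * (m (y % d) * k)) := by
    have : (d : ℤ) * (T d m r y - T d m r x) = m (y % d) * (y - x) := by linear_combination e2 - e1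
    rw [this, hk, pow_succ]; ring
  exact mul_left_cancel₀ hd.ne' h3

/-- the residues of the first `t` terms -/
def pat (d : ℕ) (m r : ℤ → ℤ) (t : ℕ) (x : ℤ) : Fin t → ℤ := fun j => (T d m r)^[(j : ℕ)] x % d

lemma iter_congr (D : Data d m r b e) : ∀ (j s : ℕ) (x y : ℤ), x ≡ y [ZMOD (d : ℤ) ^ (s + j)] →
    (T d m r)^[j] x ≡ (T d m r)^[j] y [ZMOD (d : ℤ) ^ s] := by
  intro j
  induction j with
  | zero => intro s x y h; exact h
  | succ j ih =>
    intro s x y h
    rw [Function.iterate_succ_apply, Function.iterate_succ_apply]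
    exact ih s _ _ (T_congr D h)

lemma pat_congr (D : Data d m r b e) {t : ℕ} {x y : ℤ} (h : x ≡ y [ZMOD (d : ℤ) ^ t]) :
    pat d m r t x = pat d m r t y := by
  funext j
  have h1 : x ≡ y [ZMOD (d : ℤ) ^ (1 + (j : ℕ))] := h.of_dvd (pow_dvd_pow _ (by have := j.2; omega))
  have h2 := iter_congr D j 1 x y h1
  rw [pow_one] at h2
  exact h2

end

open Classical in
/-- shifts do not change the number of classes -/
lemma card_shift_gen {N : ℕ} [NeZero N] {Q : ℤ → Prop} (hQ : ∀ x y : ℤ, x ≡ y [ZMOD N] → (Q x ↔ Q y)) (A : ℤ) :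
    #{z : ZMod N | Q (A + ((z.val : ℕ) : ℤ))} = #{c ∈ range N | Q ((c : ℕ) : ℤ)} := by
  have h1 : #{z : ZMod N | Q (A + ((z.val : ℕ) : ℤ))} = #{z : ZMod N | Q ((z.val : ℕ) : ℤ)} := by
    apply Finset.card_equiv (Equiv.addLeft (A : ZMod N))
    intro z
    simp only [mem_filter, mem_univ, true_and, Equiv.coe_addLeft]
    apply hQ
    rw [← ZMod.intCast_eq_intCast_iff]
    push_cast
    rw [ZMod.natCast_zmod_val, ZMod.natCast_zmod_val]
  rw [h1]
  apply Finset.card_nbij' (fun z : ZMod N => z.val) (fun n => (n : ZMod N))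
  · intro z hz
    simp only [Finset.coe_filter, Finset.mem_univ, true_and, Set.mem_ofPred_eq] at hz
    simp only [Finset.coe_filter, Finset.mem_range, Set.mem_ofPred_eq]
    exact ⟨ZMod.val_lt z, hz⟩
  · intro n hn
    simp only [Finset.coe_filter, Finset.mem_range, Set.mem_ofPred_eq] at hn
    simp only [Finset.coe_filter, Finset.mem_univ, true_and, Set.mem_ofPred_eq]
    rw [ZMod.val_cast_of_lt hn.1]
    exact hn.2
  · intro z _; exact ZMod.natCast_zmod_val z
  · intro n hn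
    simp only [Finset.coe_filter, Finset.mem_range, Set.mem_ofPred_eq] at hn
    exact ZMod.val_cast_of_lt hn.1

open Classical in
/-- **the residues of the terms**: the law is the one for uniformly distributed classes -/
theorem pattern_law {q d : ℕ} (hq : 2 ≤ q) (hd2 : 2 ≤ d) (hcop : Nat.Coprime q d) {c : ℝ} (hc : 0 < c) (hc1 : c ≤ 1) :
    ∃ δ K : ℝ, 0 < δ ∧ 0 < K ∧ ∀ (L t Δ : ℕ) (ν : Fin L → Fin q → ℝ), 1 ≤ t → (t : ℝ) * Real.log L ≤ δ * L →
      0 < Δ → Nat.Coprime Δ d → Law q Δ c ν → ∀ (m r b : ℤ → ℤ) (e : ℤ → ℕ), Data d m r b e →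
      ∀ (f : ℤ[X]) (A : ℤ) (E : Set (Fin t → ℤ)),
        |prob ν (fun n => pat d m r t (f.eval (A + (n : ℤ))) ∈ E) -
          (#{u ∈ range (d ^ t) | pat d m r t (f.eval ((u : ℕ) : ℤ)) ∈ E} : ℝ) / (d : ℝ) ^ t| ≤
          K * Real.exp (-(δ * (L / t))) := by
  obtain ⟨δ, K, hδ, hK, h⟩ := dist_gen hq hc hc1
  have hdR : (0 : ℝ) < d := by exact_mod_cast (by omega : 0 < d)
  refine ⟨δ / d, K, by positivity, hK, fun L t Δ ν ht htL hΔ0 hΔ hlaw m r b e D f A E => ?_⟩
  have : NeZero (d ^ t) := ⟨by positivity⟩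
  have htR : (0 : ℝ) < t := by exact_mod_cast ht
  have hNb : d ^ t ≤ q ^ (d * t) := by
    rw [pow_mul]
    apply Nat.pow_le_pow_left
    calc d ≤ 2 ^ d := Nat.lt_two_pow_self.le
      _ ≤ q ^ d := Nat.pow_le_pow_left hq _
  have h1 := h L (d * t) Δ (d ^ t) ν (by nlinarith) (by
    push_cast
    have : (d : ℝ) * t * Real.log L = d * (t * Real.log L) := by ring
    rw [this]
    calc (d : ℝ) * (t * Real.log L) ≤ d * (δ / d * L) := mul_le_mul_of_nonneg_left htL hdR.le
      _ = δ * L := by field_simp) hNb (Nat.Coprime.pow_right _ hcop) hΔ0 (Nat.Coprime.pow_right _ hΔ) hlaw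
  have hQ : ∀ x y : ℤ, x ≡ y [ZMOD ((d ^ t : ℕ) : ℤ)] →
      (pat d m r t (f.eval x) ∈ E ↔ pat d m r t (f.eval y) ∈ E) := by
    intro x y hxy
    have h2 : f.eval x ≡ f.eval y [ZMOD (d : ℤ) ^ t] := by
      have h3 : x ≡ y [ZMOD (d : ℤ) ^ t] := by
        have e : ((d ^ t : ℕ) : ℤ) = (d : ℤ) ^ t := by push_cast; ring
        rwa [e] at hxy
      exact Pool.Agent.Y57.HS.eval_congr f h3
    rw [pat_congr D h2]
  set Z : Finset (ZMod (d ^ t)) := {z : ZMod (d ^ t) | pat d m r t (f.eval (A + ((z.val : ℕ) : ℤ))) ∈ E} with hZ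
  have h2 := prob_class ν (fun n => pat d m r t (f.eval (A + (n : ℤ))) ∈ E) Z (by
    intro n
    rw [hZ, mem_filter]
    simp only [mem_univ, true_and]
    apply hQ
    rw [← ZMod.intCast_eq_intCast_iff]
    push_cast
    rw [ZMod.natCast_zmod_val])
  rw [hZ, card_shift_gen (Q := fun x => pat d m r t (f.eval x) ∈ E) hQ A] at h2
  push_cast at h2
  refine h2.trans (h1.trans (le_of_eq ?_))
  congr 2
  push_cast
  field_simp

end Pool.Agent.X17.LC
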